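import Pool.Agent.SmallW.Nest

/-! Counting branches. -/

set_option autoImplicit false

open Set Topology TopologicalSpace
open Cardinal hiding univ
open scoped Cardinal

namespace Pool.Agent.SmallW

open Pool.Agent.Gap

section

variable {X J : Type} [MetricSpace X] {n : ℕ} (N : Nested X J n)

/-- the ancestor at level `m` of an index of level `m + j` -/
def Nested.P (m : ℕ) : ℕ → J → J
  | 0 => id
  | j + 1 => fun ξ => Nested.P m j (N.p (m + j) ξ)

theorem Nested.P_succ' (m j : ℕ) (ξ : J) : N.P m (j + 1) ξ = N.p m (N.P (m + 1) j ξ) := by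
  induction j generalizing ξ with
  | zero => rfl
  | succ j ih =>
    show N.P m (j + 1) (N.p (m + (j + 1)) ξ) = N.p m (N.P (m + 1) j (N.p (m + 1 + j) ξ))
    rw [ih, show m + (j + 1) = m + 1 + j by omega]

/-- ancestors at level `m` of the indices of level `m + j` whose sets contain `x` -/
def Nested.D (m j : ℕ) (x : X) : Set J := N.P m j '' {ξ | x ∈ N.W (m + j) ξ}

theorem Nested.D_succ (m j : ℕ) (x : X) : N.D m (j + 1) x ⊆ N.D m j x := by
  rintro _ ⟨η, hη, rfl⟩
  exact ⟨N.p (m + j) η, N.par _ _ (N.sub _ _ hη), rfl⟩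

theorem Nested.D_anti (m : ℕ) (x : X) : Antitone (fun j => N.D m j x) :=
  antitone_nat_of_succ_le fun j => N.D_succ m j x

theorem Nested.D_fin (m j : ℕ) (x : X) : (N.D m j x).Finite := (N.fin _ x).image _

theorem Nested.D_ne (m j : ℕ) (x : X) : (N.D m j x).Nonempty := by
  obtain ⟨ξ, hξ⟩ := N.cov (m + j) x
  exact ⟨_, ξ, hξ, rfl⟩

/-- the branches through level `m` -/
def Nested.E (m : ℕ) (x : X) : Set J := ⋂ j, N.D m j x

theorem Nested.E_eq (m : ℕ) (x : X) : ∃ j0, ∀ j ≥ j0, N.D m j x = N.E m x := by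
  classical
  let S : Set ℕ := range fun j => (N.D m j x).ncard
  have hS : S.Nonempty := ⟨_, 0, rfl⟩
  obtain ⟨j0, hj0⟩ := Nat.sInf_mem hS
  have hmin : ∀ j, (N.D m j0 x).ncard ≤ (N.D m j x).ncard := fun j => by
    simp only at hj0
    rw [hj0]
    exact Nat.sInf_le ⟨j, rfl⟩
  have heq : ∀ j ≥ j0, N.D m j x = N.D m j0 x := fun j hj =>
    Set.eq_of_subset_of_ncard_le (N.D_anti m x hj) (hmin j) (N.D_fin m j0 x)
  have hE : N.E m x = N.D m j0 x := by
    refine Subset.antisymm (iInter_subset _ j0) (subset_iInter fun j => ?_)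
    rcases le_total j0 j with h | h
    · rw [heq j h]
    · exact N.D_anti m x h
  exact ⟨j0, fun j hj => by rw [heq j hj, hE]⟩

theorem Nested.E_fin (m : ℕ) (x : X) : (N.E m x).Finite :=
  (N.D_fin m 0 x).subset (iInter_subset _ 0)

theorem Nested.E_sub (m : ℕ) (x : X) : N.E m x ⊆ {ξ | x ∈ N.W m ξ} := by
  intro ξ hξ
  obtain ⟨η, hη, rfl⟩ := mem_iInter.1 hξ 0
  exact hη

theorem Nested.E_ne (m : ℕ) (x : X) : (N.E m x).Nonempty := by
  obtain ⟨j0, h⟩ := N.E_eq m x
  rw [← h j0 le_rfl]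
  exact N.D_ne m j0 x

theorem Nested.E_card (m : ℕ) (x : X) : (N.E m x).ncard ≤ n + 1 :=
  (Set.ncard_le_ncard (N.E_sub m x) (N.fin m x)).trans (N.card m x)

theorem Nested.E_succ (m : ℕ) (x : X) : (N.E m x).ncard ≤ (N.E (m + 1) x).ncard := by
  obtain ⟨j0, h⟩ := N.E_eq (m + 1) x
  have hsub : N.E m x ⊆ N.p m '' N.E (m + 1) x := by
    intro ξ hξ
    obtain ⟨η, hη, rfl⟩ := mem_iInter.1 hξ (j0 + 1)
    refine ⟨N.P (m + 1) j0 η, ?_, (N.P_succ' m j0 η).symm⟩
    rw [← h j0 le_rfl]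
    refine ⟨η, ?_, rfl⟩
    have e : m + (j0 + 1) = m + 1 + j0 := by omega
    rw [e] at hη
    exact hη
  exact (Set.ncard_le_ncard hsub ((N.E_fin _ x).image _)).trans (Set.ncard_image_le (N.E_fin _ x))

theorem Nested.E_mono (x : X) : Monotone (fun m => (N.E m x).ncard) :=
  monotone_nat_of_le_succ fun m => N.E_succ m x

theorem Nested.E_usc (m : ℕ) (x : X) : ∀ᶠ y in 𝓝 x, N.E m y ⊆ N.E m x := by
  obtain ⟨j0, h⟩ := N.E_eq m x
  have hlf := (N.lf (m + j0 + 1)).closure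
  filter_upwards [hlf.eventually_subset (fun ξ => isClosed_closure) x] with y hy ξ hξ
  obtain ⟨η, hη, rfl⟩ := mem_iInter.1 hξ (j0 + 1)
  rw [← h j0 le_rfl]
  have h1 : η ∈ {ξ | x ∈ closure (N.W (m + j0 + 1) ξ)} := hy (subset_closure hη)
  have h2 : x ∈ N.C (m + j0 + 1) η :=
    closure_minimal (N.sub (m + j0 + 1) η) (N.closed (m + j0 + 1) η) h1
  exact ⟨N.p (m + j0) η, N.par (m + j0) η h2, rfl⟩

theorem Nested.exists_max (x : X) : ∃ m0, ∀ m, (N.E m x).ncard ≤ (N.E m0 x).ncard := by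
  have hfin : (range fun m => (N.E m x).ncard).Finite :=
    (Set.finite_Iic (n + 1)).subset (by rintro _ ⟨m, rfl⟩; exact N.E_card m x)
  obtain ⟨_, ⟨m0, rfl⟩, h⟩ := hfin.exists_maximal ⟨_, 0, rfl⟩
  refine ⟨m0, fun m => ?_⟩
  rcases le_total (N.E m x).ncard (N.E m0 x).ncard with h' | h'
  · exact h'
  · exact h ⟨m, rfl⟩ h'

/-- the points with exactly `k` branches -/
def Nested.Z (k : ℕ) : Set X :=
  {x | (∀ m, (N.E m x).ncard ≤ k) ∧ ∃ m, (N.E m x).ncard = k}

theorem Nested.Z_cover (x : X) : ∃ k : Fin (n + 1), x ∈ N.Z (k + 1) := by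
  obtain ⟨m0, h⟩ := N.exists_max x
  have h1 : 0 < (N.E m0 x).ncard := (Set.ncard_pos (N.E_fin m0 x)).2 (N.E_ne m0 x)
  have h2 := N.E_card m0 x
  have e : (N.E m0 x).ncard - 1 + 1 = (N.E m0 x).ncard := by omega
  refine ⟨⟨(N.E m0 x).ncard - 1, by omega⟩, fun m => ?_, m0, ?_⟩
  · simp only [e]; exact h m
  · simp only [e]

theorem Nested.Z_sz (k : ℕ) : SZ (N.Z k) := by
  let S : ℕ → Set (N.Z k) := fun j => {x | (N.E j (x : X)).ncard = k}
  refine SZ.of_countable_closed S ?_ ?_ ?_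
  · intro j
    rw [← isOpen_compl_iff, isOpen_iff_mem_nhds]
    intro x hx
    have h1 : ∀ᶠ y : N.Z k in 𝓝 x, N.E j (y : X) ⊆ N.E j (x : X) :=
      continuous_subtype_val.continuousAt.eventually (N.E_usc j (x : X))
    filter_upwards [h1] with y hy hyS
    have h2 := Set.ncard_le_ncard hy (N.E_fin j _)
    have h3 : (N.E j (y : X)).ncard = k := hyS
    have h4 := x.2.1 j
    exact hx (by show (N.E j (x : X)).ncard = k; omega)
  · intro j
    refine PZ.sz fun ε hε => ?_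
    obtain ⟨i, hi⟩ := exists_nat_one_div_lt hε
    set m := max i j with hm
    have hcard : ∀ x : S j, (N.E m ((x : N.Z k) : X)).ncard = k := by
      intro x
      have h1 := N.E_mono ((x : N.Z k) : X) (le_max_right i j)
      have h2 : (N.E j ((x : N.Z k) : X)).ncard = k := x.2
      have h3 := x.1.2.1 m
      simp only at h1
      rw [← hm] at h1
      omega
    refine ⟨Set J, fun x => N.E m ((x : N.Z k) : X), fun t => ?_, fun x x' h => ?_⟩
    · rw [isOpen_iff_mem_nhds]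
      intro x hx
      have h1 : ∀ᶠ y : S j in 𝓝 x, N.E m ((y : N.Z k) : X) ⊆ N.E m ((x : N.Z k) : X) :=
        (continuous_subtype_val.comp continuous_subtype_val).continuousAt.eventually
          (N.E_usc m ((x : N.Z k) : X))
      filter_upwards [h1] with y hy
      show N.E m ((y : N.Z k) : X) = t
      rw [Set.eq_of_subset_of_ncard_le hy (by rw [hcard x, hcard y]) (N.E_fin m _)]
      exact hx
    · obtain ⟨ξ, hξ⟩ := N.E_ne m ((x : N.Z k) : X)
      have h1 := N.sub m ξ (N.E_sub m _ hξ)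
      have h' : N.E m ((x : N.Z k) : X) = N.E m ((x' : N.Z k) : X) := h
      have hξ' : ξ ∈ N.E m ((x' : N.Z k) : X) := h' ▸ hξ
      have h2 := N.sub m ξ (N.E_sub m _ hξ')
      have h3 := N.diam m ξ _ _ h1 h2
      have h4 : (1 : ℝ) / ((m : ℝ) + 1) ≤ 1 / ((i : ℝ) + 1) := by
        apply one_div_le_one_div_of_le (by positivity)
        have : (i : ℝ) ≤ m := by exact_mod_cast le_max_left i j
        linarith
      show dist ((x : N.Z k) : X) ((x' : N.Z k) : X) ≤ ε
      linarith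
  · refine eq_univ_of_forall fun x => ?_
    obtain ⟨m, hm⟩ := x.2.2
    exact mem_iUnion.2 ⟨m, hm⟩

end

theorem small_weight (n : ℕ) (X : Type) [MetricSpace X]
    (hb : IsTopologicalBasis {s : Set X | IsClopen s}) (D : Set X) (hD : Dense D)
    (hc : #D ≤ ℵ_ n) :
    ∃ S : Fin (n + 1) → Set X, (∀ j, SZ (S j)) ∧ ⋃ j, S j = univ := by
  obtain ⟨N⟩ := exists_nested n hb hD hc
  refine ⟨fun k => N.Z (k + 1), fun k => N.Z_sz _, eq_univ_of_forall fun x => ?_⟩
  obtain ⟨k, hk⟩ := N.Z_cover x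
  exact mem_iUnion.2 ⟨k, hk⟩

end Pool.Agent.SmallW
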