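import Pool.Agent.SmallW.Step

/-! Clopen covers of size `ℵ_n` have refinements of order `n + 1`. -/

set_option autoImplicit false

open Set Topology
open Cardinal hiding univ
open scoped Cardinal

namespace Pool.Agent.SmallW

variable {X J : Type} [TopologicalSpace X] {C : J → Set X}

theorem exists_rank (A : Set J) : ∃ f : J → Ordinal.{0}, InjOn f A ∧
    ∀ β ∈ A, #{ξ | ξ ∈ A ∧ f ξ < f β} < #A := by
  classical
  obtain ⟨e⟩ : Nonempty (A ≃ (#A).ord.ToType) := by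
    rw [← Cardinal.eq, mk_ord_toType]
  refine ⟨fun ξ => if h : ξ ∈ A then Ordinal.typein (α := (#A).ord.ToType) (· < ·) (e ⟨ξ, h⟩) else 0,
    ?_, ?_⟩
  · intro a ha b hb hab
    simp only [dif_pos ha, dif_pos hb] at hab
    have := e.injective (Ordinal.typein_injective _ hab)
    exact congrArg Subtype.val this
  · intro β hβ
    refine lt_of_le_of_lt ?_ (show #(Iio (e ⟨β, hβ⟩)) < #A by simpa using mk_Iio_lt (e ⟨β, hβ⟩))
    refine mk_le_of_injective (f := fun ξ => ⟨e ⟨ξ.1, ξ.2.1⟩, ?_⟩) ?_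
    · have h := ξ.2.2
      simp only [dif_pos hβ, dif_pos ξ.2.1] at h
      exact (Ordinal.typein_lt_typein (α := (#A).ord.ToType) (· < ·)).1 h
    · intro a b hab
      have h1 : e ⟨a.1, a.2.1⟩ = e ⟨b.1, b.2.1⟩ := congrArg Subtype.val hab
      have h2 := e.injective h1
      rw [Subtype.mk.injEq] at h2
      exact Subtype.ext h2

theorem exists_op (hC : ∀ ξ, IsClopen (C ξ)) (n : ℕ) : ∀ A : Set J, #A ≤ ℵ_ n →
    ∃ K : X → (J → ℝ) → (J → ℝ), GoodOp C n A K := by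
  induction n with
  | zero =>
    intro A hA
    refine base_op hC ?_
    rw [Nat.cast_zero, aleph_zero] at hA
    exact Cardinal.le_aleph0_iff_set_countable.1 hA
  | succ n ih =>
    intro A hA
    obtain ⟨f, hf, hseg⟩ := exists_rank A
    refine step_op hf fun β hβ => ih _ ?_
    have h1 := (hseg β hβ).trans_le hA
    rw [Nat.cast_add, Nat.cast_one, ← succ_aleph, Order.lt_succ_iff] at h1
    exact h1

/-- Every clopen cover of size at most `ℵ_n` of a metric space has a locally finite open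
refinement of order at most `n + 1`. -/
theorem exists_refine [NormalSpace X] [ParacompactSpace X] (n : ℕ) (hJ : #J ≤ ℵ_ n)
    (hC : ∀ ξ, IsClopen (C ξ)) (hcov : ⋃ ξ, C ξ = univ) :
    ∃ U : J → Set X, (∀ ξ, IsOpen (U ξ)) ∧ (∀ ξ, U ξ ⊆ C ξ) ∧ ⋃ ξ, U ξ = univ ∧
      LocallyFinite U ∧ ∀ x, {ξ | x ∈ U ξ}.Finite ∧ {ξ | x ∈ U ξ}.ncard ≤ n + 1 := by
  classical
  obtain ⟨K, hK⟩ := exists_op hC n (univ : Set J) (by rw [mk_univ]; exact hJ)
  obtain ⟨ρ, hρ⟩ := PartitionOfUnity.exists_isSubordinate isClosed_univ C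
    (fun ξ => (hC ξ).isOpen) (by rw [hcov])
  let g : X → J → ℝ := fun x ξ => ρ ξ x
  have hg : Continuous g := continuous_pi fun ξ => (ρ ξ).continuous
  have hlf := ρ.locallyFinite_tsupport
  -- local description
  have hloc : ∀ x, ∃ s r : Finset J, (∀ ξ ∈ s, x ∈ C ξ) ∧ (∀ ξ ∈ r, x ∈ C ξ) ∧
      ∃ O : Set X, IsOpen O ∧ x ∈ O ∧ (∀ y ∈ O, g y ∈ Dom s ∧ K y (g y) = K x (g y) ∧
        K x (g y) ∈ Dom r) ∧ ContinuousOn (K x) (Dom s) := by
    intro x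
    have hfin : {ξ | x ∈ tsupport (ρ ξ)}.Finite := hlf.point_finite x
    have hs : ∀ ξ ∈ hfin.toFinset, ξ ∈ (univ : Set J) ∧ x ∈ C ξ := by
      intro ξ hξ
      rw [Set.Finite.mem_toFinset] at hξ
      exact ⟨trivial, hρ ξ hξ⟩
    obtain ⟨r, hr, hev, hD, hc⟩ := hK.loc x hfin.toFinset hs
    have hev2 : ∀ᶠ y in 𝓝 x, g y ∈ Dom hfin.toFinset := by
      filter_upwards [hlf.eventually_subset (fun ξ => isClosed_tsupport _) x] with y hy
      refine ⟨fun ξ => ρ.nonneg ξ y, fun ξ hξ => ?_⟩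
      by_contra h
      refine hξ ?_
      rw [Set.Finite.mem_toFinset]
      exact hy (subset_tsupport _ h)
    obtain ⟨O, hO1, hO2, hO3⟩ := mem_nhds_iff.1 (hev.and hev2)
    exact ⟨hfin.toFinset, r, fun ξ hξ => (hs ξ hξ).2, fun ξ hξ => (hr ξ hξ).2, O, hO2, hO3,
      fun y hy => ⟨(hO1 hy).2, (hO1 hy).1 _ (hO1 hy).2, hD _ (hO1 hy).2⟩, hc⟩
  have hdom : ∀ x, ∃ s : Finset J, (∀ ξ ∈ s, ξ ∈ (univ : Set J) ∧ x ∈ C ξ) ∧ g x ∈ Dom s := by
    intro x
    obtain ⟨s, r, hs, _, O, _, hxO, h, _⟩ := hloc x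
    exact ⟨s, fun ξ hξ => ⟨trivial, hs ξ hξ⟩, (h x hxO).1⟩
  have hg0 : ∀ x, g x ≠ 0 := by
    intro x h
    have h1 := ρ.sum_eq_one (mem_univ x)
    have h2 : ∀ ξ, ρ ξ x = 0 := fun ξ => congrFun h ξ
    simp [h2] at h1
  refine ⟨fun ξ => {x | K x (g x) ξ ≠ 0}, ?_, ?_, ?_, ?_, ?_⟩
  · intro ξ
    rw [isOpen_iff_mem_nhds]
    intro x hx
    obtain ⟨s, r, hs, hr, O, hO, hxO, h, hc⟩ := hloc x
    have hcont : ContinuousOn (fun y => K x (g y) ξ) O :=
      ((continuous_apply ξ).comp_continuousOn hc).comp hg.continuousOn fun y hy => (h y hy).1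
    have h1 : ∀ᶠ y in 𝓝 x, K x (g y) ξ ≠ 0 :=
      (hcont.continuousAt (hO.mem_nhds hxO)).eventually_ne hx
    filter_upwards [h1, hO.mem_nhds hxO] with y hy hyO
    show K y (g y) ξ ≠ 0
    rw [(h y hyO).2.1]
    exact hy
  · intro ξ x hx
    obtain ⟨s, r, hs, hr, O, hO, hxO, h, hc⟩ := hloc x
    refine hr ξ ?_
    by_contra hξ
    exact hx ((h x hxO).2.2.2 ξ hξ)
  · refine eq_univ_of_forall fun x => ?_
    obtain ⟨s, hs, hxs⟩ := hdom x
    have h1 := hK.ne x s hs _ hxs (hg0 x)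
    by_contra h
    refine h1 (funext fun ξ => ?_)
    by_contra h2
    exact h (mem_iUnion.2 ⟨ξ, h2⟩)
  · intro x
    obtain ⟨s, r, hs, hr, O, hO, hxO, h, hc⟩ := hloc x
    refine ⟨O, hO.mem_nhds hxO, r.finite_toSet.subset ?_⟩
    rintro ξ ⟨y, hy1, hy2⟩
    by_contra hξ
    refine hy1 ?_
    rw [(h y hy2).2.1]
    exact (h y hy2).2.2.2 ξ hξ
  · intro x
    obtain ⟨s, r, hs, hr, O, hO, hxO, h, hc⟩ := hloc x
    obtain ⟨s', hs', hxs'⟩ := hdom x
    exact ⟨Dom.finite (h x hxO).2.2, hK.card x s' hs' _ hxs'⟩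

end Pool.Agent.SmallW
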