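import Pool.Agent.SmallW.Cover
import Pool.Agent.Gap.IndUpper
import Pool.Agent.Gap.ZeroDim

/-! Nested covers. -/

set_option autoImplicit false

open Set Topology TopologicalSpace
open Cardinal hiding univ
open scoped Cardinal

namespace Pool.Agent.SmallW

section

variable {X : Type} [MetricSpace X]

omit [MetricSpace X] in
theorem mk_prod_nat {D : Set X} {n : ℕ} (hc : #D ≤ ℵ_ n) : #(D × ℕ) ≤ ℵ_ n := by
  rw [mk_prod]
  simp only [lift_id, mk_nat]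
  calc #D * ℵ₀ ≤ ℵ_ n * ℵ_ n := mul_le_mul' hc (aleph0_le_aleph _)
    _ = ℵ_ n := mul_eq_self (aleph0_le_aleph _)

theorem next_cover (n : ℕ) (hb : IsTopologicalBasis {s : Set X | IsClopen s}) {D : Set X}
    (hD : Dense D) (hc : #D ≤ ℵ_ n) (V : D × ℕ → Set X) (hVo : ∀ i, IsOpen (V i))
    (hVc : ⋃ i, V i = univ) (m : ℕ) :
    ∃ (C U : D × ℕ → Set X) (p : D × ℕ → D × ℕ), (∀ ξ, IsClopen (C ξ)) ∧ (∀ ξ, IsOpen (U ξ)) ∧
      (∀ ξ, U ξ ⊆ C ξ) ∧ (∀ ξ, C ξ ⊆ V (p ξ)) ∧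
      (∀ ξ, ∀ x ∈ C ξ, ∀ y ∈ C ξ, dist x y ≤ 1 / ((m : ℝ) + 1)) ∧ ⋃ ξ, U ξ = univ ∧
      LocallyFinite U ∧ ∀ x, {ξ | x ∈ U ξ}.Finite ∧ {ξ | x ∈ U ξ}.ncard ≤ n + 1 := by
  classical
  set ε : ℝ := 1 / ((m : ℝ) + 1) with hε
  have hεpos : 0 < ε := by positivity
  let Q : D × ℕ → Set X × (D × ℕ) → Prop := fun ξ q => IsClopen q.1 ∧
    Metric.ball (ξ.1 : X) (1 / ((ξ.2 : ℝ) + 1)) ⊆ q.1 ∧ q.1 ⊆ V q.2 ∧
    ∀ x ∈ q.1, ∀ y ∈ q.1, dist x y ≤ ε
  let G : D × ℕ → Set X × (D × ℕ) := fun ξ => if h : ∃ q, Q ξ q then h.choose else (∅, ξ)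
  have hG1 : ∀ ξ, (h : ∃ q, Q ξ q) → Q ξ (G ξ) := by
    intro ξ h
    simp only [G, dif_pos h]
    exact h.choose_spec
  have hG2 : ∀ ξ, (¬ ∃ q, Q ξ q) → G ξ = (∅, ξ) := by
    intro ξ h
    simp only [G, dif_neg h]
  have hclopen : ∀ ξ, IsClopen (G ξ).1 := by
    intro ξ
    by_cases h : ∃ q, Q ξ q
    · exact (hG1 ξ h).1
    · rw [hG2 ξ h]; exact isClopen_empty
  have hcov : ⋃ ξ, (G ξ).1 = univ := by
    refine eq_univ_of_forall fun x => ?_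
    have hx : x ∈ ⋃ i, V i := by rw [hVc]; trivial
    obtain ⟨i, hi⟩ := mem_iUnion.1 hx
    obtain ⟨c, hc1, hxc, hcV⟩ := hb.exists_subset_of_mem_open (a := x)
      (u := V i ∩ Metric.ball x (ε / 2)) ⟨hi, Metric.mem_ball_self (by positivity)⟩
      ((hVo i).inter Metric.isOpen_ball)
    obtain ⟨δ, hδ, hball⟩ := Metric.isOpen_iff.1 hc1.isOpen x hxc
    obtain ⟨k, hk⟩ := exists_nat_one_div_lt (show 0 < δ / 2 by positivity)
    obtain ⟨d, hdD, hdball⟩ := hD.exists_mem_open (Metric.isOpen_ball (x := x)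
      (ε := 1 / ((k : ℝ) + 1))) ⟨x, Metric.mem_ball_self (by positivity)⟩
    refine mem_iUnion.2 ⟨(⟨d, hdD⟩, k), ?_⟩
    have hq : ∃ q, Q (⟨d, hdD⟩, k) q := by
      refine ⟨(c, i), hc1, ?_, fun y hy => (hcV hy).1, ?_⟩
      · intro y hy
        refine hball ?_
        rw [Metric.mem_ball] at hy hdball ⊢
        have := dist_triangle y d x
        simp only at hy
        linarith
      · intro y hy z hz
        have h1 := (hcV hy).2
        have h2 := (hcV hz).2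
        rw [Metric.mem_ball] at h1 h2
        have := dist_triangle_right y z x
        linarith
    refine (hG1 _ hq).2.1 ?_
    rw [Metric.mem_ball] at hdball ⊢
    rwa [dist_comm]
  obtain ⟨U, hU1, hU2, hU3, hU4, hU5⟩ := exists_refine n (mk_prod_nat hc) hclopen hcov
  refine ⟨fun ξ => (G ξ).1, U, fun ξ => (G ξ).2, hclopen, hU1, hU2, ?_, ?_, hU3, hU4, hU5⟩
  · intro ξ
    by_cases h : ∃ q, Q ξ q
    · exact (hG1 ξ h).2.2.1
    · simp only [hG2 ξ h]; exact empty_subset _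
  · intro ξ x hx y hy
    by_cases h : ∃ q, Q ξ q
    · exact (hG1 ξ h).2.2.2 x hx y hy
    · simp only [hG2 ξ h] at hx
      exact hx.elim

/-- nested covers -/
structure Nested (X J : Type) [MetricSpace X] (n : ℕ) where
  W : ℕ → J → Set X
  C : ℕ → J → Set X
  p : ℕ → J → J
  closed : ∀ m ξ, IsClosed (C m ξ)
  sub : ∀ m ξ, W m ξ ⊆ C m ξ
  par : ∀ m ξ, C (m + 1) ξ ⊆ W m (p m ξ)
  diam : ∀ m ξ x y, x ∈ C m ξ → y ∈ C m ξ → dist x y ≤ 1 / ((m : ℝ) + 1)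
  cov : ∀ m x, ∃ ξ, x ∈ W m ξ
  lf : ∀ m, LocallyFinite (W m)
  fin : ∀ m x, {ξ | x ∈ W m ξ}.Finite
  card : ∀ m x, {ξ | x ∈ W m ξ}.ncard ≤ n + 1

theorem exists_nested (n : ℕ) (hb : IsTopologicalBasis {s : Set X | IsClopen s}) {D : Set X}
    (hD : Dense D) (hc : #D ≤ ℵ_ n) : Nonempty (Nested X (D × ℕ) n) := by
  classical
  let S := {V : D × ℕ → Set X // (∀ i, IsOpen (V i)) ∧ ⋃ i, V i = univ}
  have key := fun (V : S) (m : ℕ) => next_cover n hb hD hc V.1 V.2.1 V.2.2 m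
  choose C U p h1 h2 h3 h4 h5 h6 h7 h8 using key
  let V : ℕ → S := fun m =>
    Nat.rec ⟨fun _ => univ, fun _ => isOpen_univ, by
        refine eq_univ_of_forall fun x => ?_
        obtain ⟨d, hd, _⟩ := hD.exists_mem_open (isOpen_univ (X := X)) ⟨x, trivial⟩
        exact mem_iUnion.2 ⟨(⟨d, hd⟩, 0), trivial⟩⟩
      (fun k v => ⟨U v k, h2 v k, h6 v k⟩) m
  refine ⟨⟨fun m => U (V m) m, fun m => C (V m) m, fun m => p (V (m + 1)) (m + 1),
    fun m ξ => (h1 (V m) m ξ).isClosed, fun m ξ => h3 (V m) m ξ,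
    fun m ξ => h4 (V (m + 1)) (m + 1) ξ,
    fun m ξ x y hx hy => h5 (V m) m ξ x hx y hy,
    fun m x => ?_, fun m => h7 (V m) m,
    fun m x => (h8 (V m) m x).1, fun m x => (h8 (V m) m x).2⟩⟩
  have hx : x ∈ ⋃ i, U (V m) m i := by rw [h6]; trivial
  exact mem_iUnion.1 hx

end

end Pool.Agent.SmallW
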