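import Mathlib

/-! Operators that push finitely supported functions into an `n`-dimensional complex. -/

set_option autoImplicit false

open Set Topology

namespace Pool.Agent.SmallW

/-- nonnegative functions supported in the finite set `s` -/
def Dom {J : Type} (s : Finset J) : Set (J → ℝ) := {g | (∀ ξ, 0 ≤ g ξ) ∧ ∀ ξ, ξ ∉ s → g ξ = 0}

theorem Dom.mono {J : Type} {s t : Finset J} (h : s ⊆ t) : Dom s ⊆ Dom t :=
  fun _ hg => ⟨hg.1, fun ξ hξ => hg.2 ξ fun h' => hξ (h h')⟩

theorem Dom.finite {J : Type} {s : Finset J} {g : J → ℝ} (hg : g ∈ Dom s) :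
    (Function.support g).Finite :=
  s.finite_toSet.subset fun ξ hξ => by
    by_contra h
    exact hξ (hg.2 ξ h)

theorem Dom.support_subset {J : Type} {s : Finset J} {g : J → ℝ} (hg : g ∈ Dom s) :
    Function.support g ⊆ s := fun ξ hξ => by
    by_contra h
    exact hξ (hg.2 ξ h)

/-- The operators `K x` of level `n` on the functions supported in `A`. -/
structure GoodOp {X J : Type} [TopologicalSpace X] (C : J → Set X) (n : ℕ) (A : Set J)
    (K : X → (J → ℝ) → (J → ℝ)) : Prop where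
  loc : ∀ (x : X) (s : Finset J), (∀ ξ ∈ s, ξ ∈ A ∧ x ∈ C ξ) →
    ∃ r : Finset J, (∀ ξ ∈ r, ξ ∈ A ∧ x ∈ C ξ) ∧ (∀ᶠ y in 𝓝 x, ∀ g ∈ Dom s, K y g = K x g) ∧
      (∀ g ∈ Dom s, K x g ∈ Dom r) ∧ ContinuousOn (K x) (Dom s)
  ne : ∀ (x : X) (s : Finset J), (∀ ξ ∈ s, ξ ∈ A ∧ x ∈ C ξ) → ∀ g ∈ Dom s, g ≠ 0 → K x g ≠ 0
  fix : ∀ (x : X) (s : Finset J), (∀ ξ ∈ s, ξ ∈ A ∧ x ∈ C ξ) → ∀ g ∈ Dom s,
    (Function.support g).ncard ≤ n → K x g = g
  card : ∀ (x : X) (s : Finset J), (∀ ξ ∈ s, ξ ∈ A ∧ x ∈ C ξ) → ∀ g ∈ Dom s,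
    (Function.support (K x g)).ncard ≤ n + 1

section base

variable {X J : Type} [TopologicalSpace X] {C : J → Set X}

open Classical in
/-- the first index containing `x` -/
noncomputable def psi (C : J → Set X) (A : Set J) (e : J → ℕ) (x : X) (j0 : J) : J :=
  if h : ∃ k, ∃ ξ ∈ A, x ∈ C ξ ∧ e ξ = k then (Nat.find_spec h).choose else j0

omit [TopologicalSpace X] in
theorem psi_spec (C : J → Set X) {A : Set J} {e : J → ℕ} {x : X} {j0 : J}
    (h : ∃ ξ ∈ A, x ∈ C ξ) : psi C A e x j0 ∈ A ∧ x ∈ C (psi C A e x j0) ∧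
      ∀ ξ ∈ A, x ∈ C ξ → e (psi C A e x j0) ≤ e ξ := by
  classical
  have h' : ∃ k, ∃ ξ ∈ A, x ∈ C ξ ∧ e ξ = k := by
    obtain ⟨ξ, h1, h2⟩ := h
    exact ⟨e ξ, ξ, h1, h2, rfl⟩
  have e1 : psi C A e x j0 = (Nat.find_spec h').choose := by
    unfold psi
    rw [dif_pos h']
  have h3 := (Nat.find_spec h').choose_spec
  rw [← e1] at h3
  refine ⟨h3.1, h3.2.1, fun ξ hξ hx => ?_⟩
  rw [h3.2.2]
  exact Nat.find_min' h' ⟨ξ, hξ, hx, rfl⟩

theorem psi_eventually (hC : ∀ ξ, IsClopen (C ξ)) {A : Set J} {e : J → ℕ} (he : InjOn e A)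
    {x : X} {j0 : J} (h : ∃ ξ ∈ A, x ∈ C ξ) :
    ∀ᶠ y in 𝓝 x, psi C A e y j0 = psi C A e x j0 := by
  obtain ⟨h1, h2, h3⟩ := psi_spec C (e := e) (j0 := j0) h
  set ξ0 := psi C A e x j0 with hξ0
  have hfin : {ξ | ξ ∈ A ∧ e ξ < e ξ0}.Finite := by
    refine Set.Finite.of_finite_image (f := e) ((Set.finite_Iio (e ξ0)).subset ?_)
      (fun a ha b hb hab => he ha.1 hb.1 hab)
    rintro _ ⟨ξ, hξ, rfl⟩
    exact hξ.2
  have hev : ∀ᶠ y in 𝓝 x, ∀ ξ ∈ {ξ | ξ ∈ A ∧ e ξ < e ξ0}, y ∉ C ξ := by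
    rw [Set.Finite.eventually_all hfin]
    intro ξ hξ
    refine (hC ξ).isClosed.isOpen_compl.mem_nhds fun hx => ?_
    exact absurd (h3 ξ hξ.1 hx) (not_le.2 hξ.2)
  filter_upwards [hev, (hC ξ0).isOpen.mem_nhds h2] with y hy hy0
  obtain ⟨g1, g2, g3⟩ := psi_spec C (e := e) (j0 := j0) (x := y) ⟨ξ0, h1, hy0⟩
  refine he g1 h1 (le_antisymm (g3 ξ0 h1 hy0) ?_)
  by_contra hlt
  exact hy _ ⟨g1, not_le.1 hlt⟩ g2

theorem sum_eq_of_Dom {s : Finset J} {g : J → ℝ} (hg : g ∈ Dom s) :
    ∑ᶠ ξ, g ξ = ∑ ξ ∈ s, g ξ :=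
  finsum_eq_sum_of_support_subset _ (Dom.support_subset hg)

theorem base_op (hC : ∀ ξ, IsClopen (C ξ)) {A : Set J} (hA : A.Countable) :
    ∃ K : X → (J → ℝ) → (J → ℝ), GoodOp C 0 A K := by
  classical
  rcases isEmpty_or_nonempty J with hJ | ⟨⟨j0⟩⟩
  · refine ⟨fun _ g => g, fun x s _ => ⟨s, fun ξ => (hJ.false ξ).elim, ?_, fun g hg => hg,
      continuousOn_id⟩, fun x s _ g hg h => h, fun x s _ g hg _ => rfl, fun x s _ g hg => ?_⟩
    · exact Filter.Eventually.of_forall fun y g _ => rfl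
    · have : Function.support g = ∅ := by
        ext ξ
        exact (hJ.false ξ).elim
      rw [this]
      simp
  obtain ⟨e, he⟩ := (Set.countable_iff_exists_injOn (s := A)).1 hA
  refine ⟨fun x g ξ => if ξ = psi C A e x j0 then ∑ᶠ ξ, g ξ else 0, ?_, ?_, ?_, ?_⟩
  · intro x s hs
    by_cases h : ∃ ξ ∈ A, x ∈ C ξ
    · obtain ⟨h1, h2, h3⟩ := psi_spec C (e := e) (j0 := j0) h
      refine ⟨{psi C A e x j0}, ?_, ?_, ?_, ?_⟩
      · intro ξ hξ
        rw [Finset.mem_singleton] at hξ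
        subst hξ
        exact ⟨h1, h2⟩
      · filter_upwards [psi_eventually hC he (j0 := j0) h] with y hy g _
        simp only [hy]
      · intro g hg
        refine ⟨fun ξ => ?_, fun ξ hξ => ?_⟩
        · dsimp only
          split_ifs
          · exact finsum_nonneg hg.1
          · exact le_rfl
        · rw [Finset.mem_singleton] at hξ
          dsimp only
          rw [if_neg hξ]
      · refine ContinuousOn.congr (f := fun g ξ => if ξ = psi C A e x j0 then ∑ ξ ∈ s, g ξ else 0)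
          ?_ ?_
        · refine Continuous.continuousOn ?_
          refine continuous_pi fun ξ => ?_
          by_cases hξ : ξ = psi C A e x j0
          · simp only [hξ, if_true]
            exact continuous_finsetSum _ fun i _ => continuous_apply i
          · simp only [hξ, if_false]
            exact continuous_const
        · intro g hg
          funext ξ
          simp only [sum_eq_of_Dom hg]
    · have hs0 : s = ∅ := by
        rw [Finset.eq_empty_iff_forall_notMem]
        intro ξ hξ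
        exact h ⟨ξ, hs ξ hξ⟩
      subst hs0
      have hz : ∀ g ∈ Dom (∅ : Finset J), g = 0 := fun g hg => by
        funext ξ
        exact hg.2 ξ (by simp)
      have hv : ∀ y, ∀ g ∈ Dom (∅ : Finset J),
          (fun ξ => if ξ = psi C A e y j0 then ∑ᶠ ξ, g ξ else 0) = 0 := by
        intro y g hg
        rw [hz g hg]
        funext ξ
        simp
      refine ⟨∅, by simp, ?_, ?_, ?_⟩
      · exact Filter.Eventually.of_forall fun y g hg => by
          show (fun ξ => _) = (fun ξ => _)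
          rw [hv y g hg, hv x g hg]
      · intro g hg
        show (fun ξ => _) ∈ _
        rw [hv x g hg]
        exact ⟨fun _ => le_rfl, fun _ _ => rfl⟩
      · refine ContinuousOn.congr (f := fun _ => 0) continuousOn_const ?_
        intro g hg
        exact hv x g hg
  · intro x s hs g hg hne
    have hex : ∃ ξ, g ξ ≠ 0 := by
      by_contra hcon
      push Not at hcon
      exact hne (funext hcon)
    obtain ⟨ξ, hξ⟩ := hex
    have hξs : ξ ∈ s := by
      by_contra h
      exact hξ (hg.2 ξ h)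
    intro h0
    have h1 := congrFun h0 (psi C A e x j0)
    simp only [if_true, Pi.zero_apply] at h1
    rw [sum_eq_of_Dom hg] at h1
    exact hξ ((Finset.sum_eq_zero_iff_of_nonneg fun i _ => hg.1 i).1 h1 ξ hξs)
  · intro x s hs g hg hcard
    have h0 : Function.support g = ∅ := by
      have := Set.ncard_eq_zero (Dom.finite hg)
      exact this.1 (Nat.le_zero.1 hcard)
    rw [Function.support_eq_empty_iff] at h0
    subst h0
    funext ξ
    simp
  · intro x s hs g hg
    have hsub : Function.support (fun ξ => if ξ = psi C A e x j0 then ∑ᶠ ξ, g ξ else 0) ⊆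
        {psi C A e x j0} := by
      intro ξ hξ
      by_contra h
      rw [Set.mem_singleton_iff] at h
      exact hξ (by simp only [if_neg h])
    calc _ ≤ ({psi C A e x j0} : Set J).ncard := Set.ncard_le_ncard hsub (Set.finite_singleton _)
      _ = 0 + 1 := by simp

end base

end Pool.Agent.SmallW
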