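import Pool.Agent.SmallW.Op

/-! The inductive step for the operators. -/

set_option autoImplicit false

open Set Topology

namespace Pool.Agent.SmallW

section

variable {X J : Type} (f : J → Ordinal.{0})

/-- `g'` lies below an element of the support of `g` -/
def Rel (g' g : J → ℝ) : Prop := ∃ β, g β ≠ 0 ∧ ∀ ξ, g' ξ ≠ 0 → f ξ < f β

theorem rel_wf : WellFounded (Rel f) := by
  have key : ∀ γ : Ordinal.{0}, ∀ g : J → ℝ, (∀ ξ, g ξ ≠ 0 → f ξ < γ) → Acc (Rel f) g := by
    intro γ
    induction γ using WellFoundedLT.induction with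
    | _ γ ih =>
      intro g hg
      refine Acc.intro _ fun g' hg' => ?_
      obtain ⟨β, h1, h2⟩ := hg'
      exact ih (f β) (hg β h1) g' h2
  refine ⟨fun g => Acc.intro _ fun g' hg' => ?_⟩
  obtain ⟨β, _, h2⟩ := hg'
  exact key (f β) g' h2

open Classical in
/-- move the part of `g` below `β` towards `k` by at most `g β` -/
noncomputable def wfun (k g : J → ℝ) (β : J) : J → ℝ := fun ξ =>
  if f ξ < f β then g ξ + max (-(g β)) (min (g β) (k ξ - g ξ)) else 0

open Classical in
noncomputable def dfun (k g : J → ℝ) (β : J) : ℝ := ∑ᶠ ξ, |k ξ - Function.update g β 0 ξ|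

theorem rel_wfun (k g : J → ℝ) {β : J} (hβ : g β ≠ 0) : Rel f (wfun f k g β) g := by
  refine ⟨β, hβ, fun ξ hξ => ?_⟩
  by_contra h
  exact hξ (if_neg h)

open Classical in
noncomputable def Kst (Kb : J → X → (J → ℝ) → (J → ℝ)) (x : X) : (J → ℝ) → (J → ℝ) :=
  (rel_wf f).fix fun g rec =>
    if h : ∃ β, g β ≠ 0 ∧ ∀ ξ, g ξ ≠ 0 → f ξ ≤ f β then
      fun ξ => (if ξ = h.choose then
          max (g h.choose - dfun (Kb h.choose x (Function.update g h.choose 0)) g h.choose) 0
        else 0) +
        rec (wfun f (Kb h.choose x (Function.update g h.choose 0)) g h.choose)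
          (rel_wfun f _ g h.choose_spec.1) ξ
    else 0

theorem dfun_nonneg (k g : J → ℝ) (β : J) : 0 ≤ dfun k g β :=
  finsum_nonneg fun _ => abs_nonneg _

variable {f}

open Classical in
theorem Kst_eq (Kb : J → X → (J → ℝ) → (J → ℝ)) {A : Set J} (hf : InjOn f A) (x : X)
    {s : Finset J} (hs : ∀ ξ ∈ s, ξ ∈ A) {β : J} (hβ : β ∈ s) (hmax : ∀ ξ ∈ s, f ξ ≤ f β)
    {g : J → ℝ} (hg : g ∈ Dom s) :
    Kst f Kb x g = fun ξ => (if ξ = β then
        max (g β - dfun (Kb β x (Function.update g β 0)) g β) 0 else 0) +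
        Kst f Kb x (wfun f (Kb β x (Function.update g β 0)) g β) ξ := by
  by_cases h0 : g β = 0
  · have hw : wfun f (Kb β x (Function.update g β 0)) g β = g := by
      funext ξ
      unfold wfun
      split_ifs with h
      · rw [h0, neg_zero, max_eq_left (min_le_left _ _), add_zero]
      · by_contra hne
        have hξ : ξ ∈ s := by
          by_contra h'
          exact hne (hg.2 ξ h').symm
        have : ξ = β := hf (hs ξ hξ) (hs β hβ) (le_antisymm (hmax ξ hξ) (not_lt.1 h))
        rw [this] at hne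
        exact hne h0.symm
    rw [hw]
    funext ξ
    have : max (g β - dfun (Kb β x (Function.update g β 0)) g β) 0 = 0 := by
      rw [h0, max_eq_right]
      linarith [dfun_nonneg (Kb β x (Function.update g β 0)) g β]
    rw [this]
    simp
  · have h : ∃ β, g β ≠ 0 ∧ ∀ ξ, g ξ ≠ 0 → f ξ ≤ f β := by
      refine ⟨β, h0, fun ξ hξ => hmax ξ ?_⟩
      by_contra h'
      exact hξ (hg.2 ξ h')
    have hch : h.choose = β := by
      have hin : h.choose ∈ s := by
        by_contra h'
        exact h.choose_spec.1 (hg.2 _ h')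
      exact hf (hs _ hin) (hs β hβ) (le_antisymm (hmax _ hin) (h.choose_spec.2 β h0))
    conv_lhs => unfold Kst
    rw [WellFounded.fix_eq, dif_pos h]
    funext ξ
    simp only [hch]
    rfl

theorem Kst_zero (Kb : J → X → (J → ℝ) → (J → ℝ)) (x : X) : Kst f Kb x 0 = 0 := by
  unfold Kst
  rw [WellFounded.fix_eq, dif_neg]
  rintro ⟨β, hβ, _⟩
  exact hβ rfl

theorem clamp_aux {a u v : ℝ} (ha : 0 ≤ a) (hu : 0 ≤ u) (hv : 0 ≤ v) :
    0 ≤ u + max (-a) (min a (v - u)) := by
  have h1 : min a (v - u) ≤ max (-a) (min a (v - u)) := le_max_right _ _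
  have h2 : -u ≤ min a (v - u) := le_min (by linarith) (by linarith)
  linarith

theorem clamp_pos {a u v : ℝ} (ha : 0 < a) (hu : 0 ≤ u) (hv : 0 < v) :
    0 < u + max (-a) (min a (v - u)) := by
  have h1 : min a (v - u) ≤ max (-a) (min a (v - u)) := le_max_right _ _
  have h2 : -u < min a (v - u) := lt_min (by linarith) (by linarith)
  linarith

theorem clamp_eq {a u v : ℝ} (h : |v - u| ≤ a) : u + max (-a) (min a (v - u)) = v := by
  rw [abs_le] at h
  rw [min_eq_right h.2, max_eq_right h.1]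
  ring

open Classical in
theorem update_mem_Dom {s : Finset J} {g : J → ℝ} (hg : g ∈ Dom s) (β : J) :
    Function.update g β 0 ∈ Dom (s.erase β) := by
  refine ⟨fun ξ => ?_, fun ξ hξ => ?_⟩
  · by_cases h : ξ = β
    · subst h; simp
    · rw [Function.update_of_ne h]; exact hg.1 ξ
  · by_cases h : ξ = β
    · subst h; simp
    · rw [Function.update_of_ne h]
      exact hg.2 ξ fun h' => hξ (Finset.mem_erase.2 ⟨h, h'⟩)

open Classical in
theorem wfun_mem_Dom {s r : Finset J} {g k : J → ℝ} (hg : g ∈ Dom s) {β : J}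
    (hk : k ∈ Dom r) : wfun f k g β ∈ Dom (s.erase β ∪ r) := by
  refine ⟨fun ξ => ?_, fun ξ hξ => ?_⟩
  · unfold wfun
    split_ifs
    · exact clamp_aux (hg.1 β) (hg.1 ξ) (hk.1 ξ)
    · exact le_rfl
  · unfold wfun
    split_ifs with h
    · have hne : ξ ≠ β := fun h' => (lt_irrefl _ (h' ▸ h))
      have h1 : g ξ = 0 := hg.2 ξ fun h' => hξ (Finset.mem_union_left _ (Finset.mem_erase.2 ⟨hne, h'⟩))
      have h2 : k ξ = 0 := hk.2 ξ fun h' => hξ (Finset.mem_union_right _ h')
      rw [h1, h2, sub_zero, min_eq_right (hg.1 β), max_eq_right (by linarith [hg.1 β]), add_zero]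
    · rfl

theorem exists_max (s : Finset J) (hs : s.Nonempty) :
    ∃ β ∈ s, ∀ ξ ∈ s, f ξ ≤ f β := s.exists_max_image f hs

open Classical in
theorem erase_lt {A : Set J} (hf : InjOn f A) {s : Finset J} (hs : ∀ ξ ∈ s, ξ ∈ A) {β : J}
    (hβ : β ∈ s) (hmax : ∀ ξ ∈ s, f ξ ≤ f β) : ∀ ξ ∈ s.erase β, f ξ < f β := by
  intro ξ hξ
  obtain ⟨h1, h2⟩ := Finset.mem_erase.1 hξ
  exact lt_of_le_of_ne (hmax ξ h2) fun h => h1 (hf (hs ξ h2) (hs β hβ) h)

variable [TopologicalSpace X] {C : J → Set X}

open Classical in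
theorem step_loc {n : ℕ} {A : Set J} (hf : InjOn f A) (Kb : J → X → (J → ℝ) → (J → ℝ))
    (hKb : ∀ β ∈ A, GoodOp C n {ξ | ξ ∈ A ∧ f ξ < f β} (Kb β)) (γ : Ordinal.{0}) :
    ∀ (x : X) (s : Finset J), (∀ ξ ∈ s, ξ ∈ A ∧ x ∈ C ξ) → (∀ ξ ∈ s, f ξ < γ) →
    ∃ r : Finset J, (∀ ξ ∈ r, ξ ∈ A ∧ x ∈ C ξ) ∧
      (∀ᶠ y in 𝓝 x, ∀ g ∈ Dom s, Kst f Kb y g = Kst f Kb x g) ∧
      (∀ g ∈ Dom s, Kst f Kb x g ∈ Dom r) ∧ ContinuousOn (Kst f Kb x) (Dom s) := by
  induction γ using WellFoundedLT.induction with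
  | _ γ ih =>
    intro x s hs hsγ
    rcases s.eq_empty_or_nonempty with rfl | hne
    · have hz : ∀ g ∈ Dom (∅ : Finset J), g = 0 := fun g hg => by
        funext ξ
        exact hg.2 ξ (by simp)
      refine ⟨∅, by simp, Filter.Eventually.of_forall fun y g hg => ?_, fun g hg => ?_, ?_⟩
      · rw [hz g hg, Kst_zero, Kst_zero]
      · rw [hz g hg, Kst_zero]
        exact ⟨fun _ => le_rfl, fun _ _ => rfl⟩
      · refine ContinuousOn.congr (f := fun _ => 0) continuousOn_const ?_
        intro g hg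
        rw [hz g hg, Kst_zero]
    · obtain ⟨β, hβ, hmax⟩ := exists_max (f := f) s hne
      have hsA : ∀ ξ ∈ s, ξ ∈ A := fun ξ hξ => (hs ξ hξ).1
      have hlt := erase_lt hf hsA hβ hmax
      obtain ⟨r1, hr1, hev1, hD1, hc1⟩ := (hKb β (hsA β hβ)).loc x (s.erase β)
        (fun ξ hξ => ⟨⟨hsA ξ (Finset.mem_of_mem_erase hξ), hlt ξ hξ⟩,
          (hs ξ (Finset.mem_of_mem_erase hξ)).2⟩)
      have hu : ∀ ξ ∈ s.erase β ∪ r1, (ξ ∈ A ∧ x ∈ C ξ) ∧ f ξ < f β := by
        intro ξ hξ
        rcases Finset.mem_union.1 hξ with h | h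
        · exact ⟨hs ξ (Finset.mem_of_mem_erase h), hlt ξ h⟩
        · exact ⟨⟨(hr1 ξ h).1.1, (hr1 ξ h).2⟩, (hr1 ξ h).1.2⟩
      obtain ⟨r2, hr2, hev2, hD2, hc2⟩ := ih (f β) (hsγ β hβ) x (s.erase β ∪ r1)
        (fun ξ hξ => (hu ξ hξ).1) (fun ξ hξ => (hu ξ hξ).2)
      have hupd : ∀ g ∈ Dom s, Function.update g β 0 ∈ Dom (s.erase β) :=
        fun g hg => update_mem_Dom hg β
      have hw : ∀ g ∈ Dom s, wfun f (Kb β x (Function.update g β 0)) g β ∈
          Dom (s.erase β ∪ r1) := fun g hg => wfun_mem_Dom hg (hD1 _ (hupd g hg))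
      refine ⟨insert β r2, ?_, ?_, ?_, ?_⟩
      · intro ξ hξ
        rcases Finset.mem_insert.1 hξ with rfl | h
        · exact hs _ hβ
        · exact hr2 ξ h
      · filter_upwards [hev1, hev2] with y hy1 hy2 g hg
        rw [Kst_eq Kb hf x hsA hβ hmax hg, Kst_eq Kb hf y hsA hβ hmax hg]
        rw [hy1 _ (hupd g hg), hy2 _ (hw g hg)]
      · intro g hg
        rw [Kst_eq Kb hf x hsA hβ hmax hg]
        have h1 := hD2 _ (hw g hg)
        refine ⟨fun ξ => ?_, fun ξ hξ => ?_⟩
        · have h2 := h1.1 ξ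
          dsimp only
          split_ifs
          · exact add_nonneg (le_max_right _ _) h2
          · rw [zero_add]; exact h2
        · rw [Finset.mem_insert, not_or] at hξ
          dsimp only
          rw [if_neg hξ.1, h1.2 ξ hξ.2, zero_add]
      · refine ContinuousOn.congr (f := fun g ξ => (if ξ = β then
          max (g β - ∑ ξ ∈ s.erase β ∪ r1, |Kb β x (Function.update g β 0) ξ -
            Function.update g β 0 ξ|) 0 else 0) +
          Kst f Kb x (wfun f (Kb β x (Function.update g β 0)) g β) ξ) ?_ ?_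
        · have cu : Continuous (fun g : J → ℝ => Function.update g β 0) := by
            refine continuous_pi fun ξ => ?_
            by_cases h : ξ = β
            · subst h; simp only [Function.update_self]; exact continuous_const
            · simp only [Function.update_of_ne h]; exact continuous_apply ξ
          have ck : ContinuousOn (fun g : J → ℝ => Kb β x (Function.update g β 0)) (Dom s) :=
            hc1.comp cu.continuousOn fun g hg => hupd g hg
          have ck' : ∀ ξ, ContinuousOn (fun g : J → ℝ => Kb β x (Function.update g β 0) ξ)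
              (Dom s) := fun ξ => (continuousOn_pi.1 ck) ξ
          have cu' : ∀ ξ, ContinuousOn (fun g : J → ℝ => Function.update g β 0 ξ) (Dom s) :=
            fun ξ => ((continuous_apply ξ).comp cu).continuousOn
          have cg : ∀ ξ, ContinuousOn (fun g : J → ℝ => g ξ) (Dom s) :=
            fun ξ => (continuous_apply ξ).continuousOn
          have cw : ContinuousOn (fun g : J → ℝ =>
              wfun f (Kb β x (Function.update g β 0)) g β) (Dom s) := by
            refine continuousOn_pi.2 fun ξ => ?_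
            unfold wfun
            by_cases h : f ξ < f β
            · simp only [if_pos h]
              exact (cg ξ).add ((cg β).neg.sup ((cg β).inf ((ck' ξ).sub (cg ξ))))
            · simp only [if_neg h]
              exact continuousOn_const
          have cK : ContinuousOn (fun g : J → ℝ =>
              Kst f Kb x (wfun f (Kb β x (Function.update g β 0)) g β)) (Dom s) :=
            hc2.comp cw fun g hg => hw g hg
          refine continuousOn_pi.2 fun ξ => ContinuousOn.add ?_ (continuousOn_pi.1 cK ξ)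
          by_cases h : ξ = β
          · simp only [if_pos h]
            refine ContinuousOn.sup ((cg β).sub ?_) continuousOn_const
            exact continuousOn_finsetSum _ fun i _ => ((ck' i).sub (cu' i)).abs
          · simp only [if_neg h]
            exact continuousOn_const
        · intro g hg
          rw [Kst_eq Kb hf x hsA hβ hmax hg]
          funext ξ
          have hd : dfun (Kb β x (Function.update g β 0)) g β =
              ∑ ξ ∈ s.erase β ∪ r1, |Kb β x (Function.update g β 0) ξ -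
                Function.update g β 0 ξ| := by
            unfold dfun
            refine finsum_eq_sum_of_support_subset _ fun ξ hξ => ?_
            by_contra h
            have h' : ξ ∉ s.erase β ∪ r1 := h
            rw [Finset.mem_union, not_or] at h'
            refine hξ ?_
            simp only
            rw [(hD1 _ (hupd g hg)).2 ξ h'.2, (hupd g hg).2 ξ h'.1]
            simp
          rw [hd]

theorem wfun_eq_of_le {k g : J → ℝ} {β : J} (hg : ∀ ξ, 0 ≤ g ξ) (hk : ∀ ξ, ¬ f ξ < f β → k ξ = 0)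
    (hfin : (Function.support fun ξ => |k ξ - (open Classical in Function.update g β 0) ξ|).Finite)
    (h : dfun k g β ≤ g β) : wfun f k g β = k := by
  classical
  funext ξ
  unfold wfun
  split_ifs with hξ
  · refine clamp_eq (le_trans ?_ h)
    have hne : ξ ≠ β := fun h' => (lt_irrefl _ (h' ▸ hξ))
    have h1 := single_le_finsum ξ hfin fun i => abs_nonneg _
    rw [Function.update_of_ne hne] at h1
    exact h1
  · exact (hk ξ hξ).symm

open Classical in
theorem dfun_finite {s r : Finset J} {g k : J → ℝ} {β : J}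
    (hg : Function.update g β 0 ∈ Dom s) (hk : k ∈ Dom r) :
    (Function.support fun ξ => |k ξ - Function.update g β 0 ξ|).Finite := by
  refine (s ∪ r).finite_toSet.subset fun ξ hξ => ?_
  by_contra h
  have h' : ξ ∉ s ∪ r := h
  rw [Finset.mem_union, not_or] at h'
  refine hξ ?_
  simp only
  rw [hk.2 ξ h'.2, hg.2 ξ h'.1]
  simp

open Classical in
theorem step_fix {n : ℕ} {A : Set J} (hf : InjOn f A) (Kb : J → X → (J → ℝ) → (J → ℝ))
    (hKb : ∀ β ∈ A, GoodOp C n {ξ | ξ ∈ A ∧ f ξ < f β} (Kb β)) (γ : Ordinal.{0}) :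
    ∀ (x : X) (s : Finset J), (∀ ξ ∈ s, ξ ∈ A ∧ x ∈ C ξ) → (∀ ξ ∈ s, f ξ < γ) →
    ∀ g ∈ Dom s, (Function.support g).ncard ≤ n + 1 → Kst f Kb x g = g := by
  induction γ using WellFoundedLT.induction with
  | _ γ ih =>
    intro x s hs hsγ g hg hcard
    rcases s.eq_empty_or_nonempty with rfl | hne
    · have hz : g = 0 := by
        funext ξ
        exact hg.2 ξ (by simp)
      rw [hz, Kst_zero]
    · obtain ⟨β, hβ, hmax⟩ := exists_max (f := f) s hne
      have hsA : ∀ ξ ∈ s, ξ ∈ A := fun ξ hξ => (hs ξ hξ).1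
      have hlt := erase_lt hf hsA hβ hmax
      have hs' : ∀ ξ ∈ s.erase β, ξ ∈ A ∧ x ∈ C ξ := fun ξ hξ => hs ξ (Finset.mem_of_mem_erase hξ)
      have hupd := update_mem_Dom hg β
      by_cases h0 : g β = 0
      · have hg' : g ∈ Dom (s.erase β) := by
          rwa [Function.update_eq_self_iff.2 h0.symm] at hupd
        exact ih (f β) (hsγ β hβ) x _ hs' hlt g hg' hcard
      · have hsupp : Function.support g = insert β (Function.support (Function.update g β 0)) := by
          ext ξ
          by_cases h : ξ = β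
          · subst h
            simp [h0]
          · simp [h]
        have hcard' : (Function.support (Function.update g β 0)).ncard ≤ n := by
          rw [hsupp, Set.ncard_insert_of_notMem (by simp) (Dom.finite hupd)] at hcard
          omega
        have hk := (hKb β (hsA β hβ)).fix x (s.erase β)
          (fun ξ hξ => ⟨⟨hsA ξ (Finset.mem_of_mem_erase hξ), hlt ξ hξ⟩, (hs' ξ hξ).2⟩) _ hupd hcard'
        have hd : dfun (Function.update g β 0) g β = 0 := by
          unfold dfun
          simp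
        have hw : wfun f (Function.update g β 0) g β = Function.update g β 0 := by
          refine wfun_eq_of_le hg.1 (fun ξ hξ => ?_) (dfun_finite hupd hupd) ?_
          · exact hupd.2 ξ fun h' => hξ (hlt ξ h')
          · rw [hd]; exact hg.1 β
        rw [Kst_eq Kb hf x hsA hβ hmax hg, hk, hw, hd,
          ih (f β) (hsγ β hβ) x _ hs' hlt _ hupd (by omega)]
        funext ξ
        by_cases h : ξ = β
        · subst h
          simp [hg.1 ξ]
        · simp [h]

open Classical in
theorem step_card {n : ℕ} {A : Set J} (hf : InjOn f A) (Kb : J → X → (J → ℝ) → (J → ℝ))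
    (hKb : ∀ β ∈ A, GoodOp C n {ξ | ξ ∈ A ∧ f ξ < f β} (Kb β)) (γ : Ordinal.{0}) :
    ∀ (x : X) (s : Finset J), (∀ ξ ∈ s, ξ ∈ A ∧ x ∈ C ξ) → (∀ ξ ∈ s, f ξ < γ) →
    ∀ g ∈ Dom s, (Function.support (Kst f Kb x g)).ncard ≤ n + 2 := by
  induction γ using WellFoundedLT.induction with
  | _ γ ih =>
    intro x s hs hsγ g hg
    rcases s.eq_empty_or_nonempty with rfl | hne
    · have hz : g = 0 := by
        funext ξ
        exact hg.2 ξ (by simp)
      rw [hz, Kst_zero]
      simp
    · obtain ⟨β, hβ, hmax⟩ := exists_max (f := f) s hne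
      have hsA : ∀ ξ ∈ s, ξ ∈ A := fun ξ hξ => (hs ξ hξ).1
      have hlt := erase_lt hf hsA hβ hmax
      have hs' : ∀ ξ ∈ s.erase β, ξ ∈ A ∧ x ∈ C ξ := fun ξ hξ => hs ξ (Finset.mem_of_mem_erase hξ)
      have hs'' : ∀ ξ ∈ s.erase β, ξ ∈ {ξ | ξ ∈ A ∧ f ξ < f β} ∧ x ∈ C ξ := fun ξ hξ =>
        ⟨⟨hsA ξ (Finset.mem_of_mem_erase hξ), hlt ξ hξ⟩, (hs' ξ hξ).2⟩
      have hupd := update_mem_Dom hg β
      obtain ⟨r1, hr1, _, hD1, _⟩ := (hKb β (hsA β hβ)).loc x (s.erase β) hs''
      have hk := hD1 _ hupd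
      have hu : ∀ ξ ∈ s.erase β ∪ r1, (ξ ∈ A ∧ x ∈ C ξ) ∧ f ξ < f β := by
        intro ξ hξ
        rcases Finset.mem_union.1 hξ with h | h
        · exact ⟨hs ξ (Finset.mem_of_mem_erase h), hlt ξ h⟩
        · exact ⟨⟨(hr1 ξ h).1.1, (hr1 ξ h).2⟩, (hr1 ξ h).1.2⟩
      have hw := wfun_mem_Dom (f := f) (β := β) hg hk
      rw [Kst_eq Kb hf x hsA hβ hmax hg]
      rcases le_or_gt (g β) (dfun (Kb β x (Function.update g β 0)) g β) with hle | hgt
      · have e : (fun ξ => (if ξ = β then
            max (g β - dfun (Kb β x (Function.update g β 0)) g β) 0 else 0) +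
            Kst f Kb x (wfun f (Kb β x (Function.update g β 0)) g β) ξ) =
            Kst f Kb x (wfun f (Kb β x (Function.update g β 0)) g β) := by
          funext ξ
          rw [max_eq_right (by linarith)]
          simp
        rw [e]
        exact ih (f β) (hsγ β hβ) x _ (fun ξ hξ => (hu ξ hξ).1) (fun ξ hξ => (hu ξ hξ).2) _ hw
      · have hw' : wfun f (Kb β x (Function.update g β 0)) g β =
            Kb β x (Function.update g β 0) :=
          wfun_eq_of_le hg.1 (fun ξ hξ => hk.2 ξ fun h' => hξ (hr1 ξ h').1.2)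
            (dfun_finite hupd hk) hgt.le
        have hc := (hKb β (hsA β hβ)).card x (s.erase β) hs'' _ hupd
        rw [hw', step_fix hf Kb hKb (f β) x r1 (fun ξ hξ => ⟨(hr1 ξ hξ).1.1, (hr1 ξ hξ).2⟩)
          (fun ξ hξ => (hr1 ξ hξ).1.2) _ hk hc]
        have hsub : Function.support (fun ξ => (if ξ = β then
            max (g β - dfun (Kb β x (Function.update g β 0)) g β) 0 else 0) +
            Kb β x (Function.update g β 0) ξ) ⊆
            insert β (Function.support (Kb β x (Function.update g β 0))) := by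
          intro ξ hξ
          by_contra h
          rw [Set.mem_insert_iff, not_or] at h
          refine hξ ?_
          dsimp only
          rw [if_neg h.1, Function.notMem_support.1 h.2, add_zero]
        calc _ ≤ (insert β (Function.support (Kb β x (Function.update g β 0)))).ncard :=
              Set.ncard_le_ncard hsub ((Dom.finite hk).insert _)
          _ ≤ (Function.support (Kb β x (Function.update g β 0))).ncard + 1 :=
              Set.ncard_insert_le _ _
          _ ≤ n + 2 := by omega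

open Classical in
theorem step_ne {n : ℕ} {A : Set J} (hf : InjOn f A) (Kb : J → X → (J → ℝ) → (J → ℝ))
    (hKb : ∀ β ∈ A, GoodOp C n {ξ | ξ ∈ A ∧ f ξ < f β} (Kb β)) (γ : Ordinal.{0}) :
    ∀ (x : X) (s : Finset J), (∀ ξ ∈ s, ξ ∈ A ∧ x ∈ C ξ) → (∀ ξ ∈ s, f ξ < γ) →
    ∀ g ∈ Dom s, g ≠ 0 → Kst f Kb x g ≠ 0 := by
  induction γ using WellFoundedLT.induction with
  | _ γ ih =>
    intro x s hs hsγ g hg hg0
    rcases s.eq_empty_or_nonempty with rfl | hne
    · exact absurd (funext fun ξ => hg.2 ξ (by simp)) hg0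
    · obtain ⟨β, hβ, hmax⟩ := exists_max (f := f) s hne
      have hsA : ∀ ξ ∈ s, ξ ∈ A := fun ξ hξ => (hs ξ hξ).1
      have hlt := erase_lt hf hsA hβ hmax
      have hs' : ∀ ξ ∈ s.erase β, ξ ∈ A ∧ x ∈ C ξ := fun ξ hξ => hs ξ (Finset.mem_of_mem_erase hξ)
      have hs'' : ∀ ξ ∈ s.erase β, ξ ∈ {ξ | ξ ∈ A ∧ f ξ < f β} ∧ x ∈ C ξ := fun ξ hξ =>
        ⟨⟨hsA ξ (Finset.mem_of_mem_erase hξ), hlt ξ hξ⟩, (hs' ξ hξ).2⟩
      have hupd := update_mem_Dom hg β
      by_cases h0 : g β = 0
      · have hg' : g ∈ Dom (s.erase β) := by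
          rwa [Function.update_eq_self_iff.2 h0.symm] at hupd
        exact ih (f β) (hsγ β hβ) x _ hs' hlt g hg' hg0
      have hpos : 0 < g β := lt_of_le_of_ne (hg.1 β) (Ne.symm h0)
      obtain ⟨r1, hr1, _, hD1, _⟩ := (hKb β (hsA β hβ)).loc x (s.erase β) hs''
      have hk := hD1 _ hupd
      have hu : ∀ ξ ∈ s.erase β ∪ r1, (ξ ∈ A ∧ x ∈ C ξ) ∧ f ξ < f β := by
        intro ξ hξ
        rcases Finset.mem_union.1 hξ with h | h
        · exact ⟨hs ξ (Finset.mem_of_mem_erase h), hlt ξ h⟩
        · exact ⟨⟨(hr1 ξ h).1.1, (hr1 ξ h).2⟩, (hr1 ξ h).1.2⟩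
      have hw := wfun_mem_Dom (f := f) (β := β) hg hk
      obtain ⟨r2, hr2, _, hD2, _⟩ := step_loc hf Kb hKb (f β) x (s.erase β ∪ r1)
        (fun ξ hξ => (hu ξ hξ).1) (fun ξ hξ => (hu ξ hξ).2)
      rw [Kst_eq Kb hf x hsA hβ hmax hg]
      rcases le_or_gt (g β) (dfun (Kb β x (Function.update g β 0)) g β) with hle | hgt
      · have e : (fun ξ => (if ξ = β then
            max (g β - dfun (Kb β x (Function.update g β 0)) g β) 0 else 0) +
            Kst f Kb x (wfun f (Kb β x (Function.update g β 0)) g β) ξ) =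
            Kst f Kb x (wfun f (Kb β x (Function.update g β 0)) g β) := by
          funext ξ
          rw [max_eq_right (by linarith)]
          simp
        rw [e]
        refine ih (f β) (hsγ β hβ) x _ (fun ξ hξ => (hu ξ hξ).1) (fun ξ hξ => (hu ξ hξ).2) _ hw ?_
        have hg'0 : Function.update g β 0 ≠ 0 := by
          intro hz
          have hfix := (hKb β (hsA β hβ)).fix x (s.erase β) hs'' _ hupd (by rw [hz]; simp)
          have : dfun (Kb β x (Function.update g β 0)) g β = 0 := by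
            rw [hfix]
            unfold dfun
            simp
          rw [this] at hle
          exact absurd hpos (not_lt.2 hle)
        have hk0 := (hKb β (hsA β hβ)).ne x (s.erase β) hs'' _ hupd hg'0
        have hex : ∃ ξ, Kb β x (Function.update g β 0) ξ ≠ 0 := by
          by_contra hcon
          push Not at hcon
          exact hk0 (funext hcon)
        obtain ⟨ξ, hξ⟩ := hex
        have hξr : ξ ∈ r1 := by
          by_contra h
          exact hξ (hk.2 ξ h)
        intro hw0
        have h1 := congrFun hw0 ξ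
        unfold wfun at h1
        rw [if_pos (hr1 ξ hξr).1.2] at h1
        have h2 := clamp_pos hpos (hg.1 ξ) (lt_of_le_of_ne (hk.1 ξ) (Ne.symm hξ))
        exact h2.ne' h1
      · intro hz
        have h1 := congrFun hz β
        simp only [if_true, Pi.zero_apply] at h1
        have h2 := (hD2 _ hw).1 β
        have h3 : g β - dfun (Kb β x (Function.update g β 0)) g β ≤
          max (g β - dfun (Kb β x (Function.update g β 0)) g β) 0 := le_max_left _ _
        linarith

theorem step_op {n : ℕ} {A : Set J} (hf : InjOn f A)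
    (h : ∀ β ∈ A, ∃ K : X → (J → ℝ) → (J → ℝ), GoodOp C n {ξ | ξ ∈ A ∧ f ξ < f β} K) :
    ∃ K : X → (J → ℝ) → (J → ℝ), GoodOp C (n + 1) A K := by
  classical
  let Kb : J → X → (J → ℝ) → (J → ℝ) := fun β => if hβ : β ∈ A then (h β hβ).choose else fun _ g => g
  have hKb : ∀ β ∈ A, GoodOp C n {ξ | ξ ∈ A ∧ f ξ < f β} (Kb β) := by
    intro β hβ
    simp only [Kb, dif_pos hβ]
    exact (h β hβ).choose_spec
  have hb : ∀ s : Finset J, ∃ γ : Ordinal.{0}, ∀ ξ ∈ s, f ξ < γ := fun s =>
    ⟨s.sup f + 1, fun ξ hξ => lt_of_le_of_lt (Finset.le_sup (f := f) hξ) (lt_add_one _)⟩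
  refine ⟨Kst f Kb, fun x s hs => ?_, fun x s hs => ?_, fun x s hs => ?_, fun x s hs => ?_⟩
  · obtain ⟨γ, hγ⟩ := hb s
    exact step_loc hf Kb hKb γ x s hs hγ
  · obtain ⟨γ, hγ⟩ := hb s
    exact step_ne hf Kb hKb γ x s hs hγ
  · obtain ⟨γ, hγ⟩ := hb s
    exact step_fix hf Kb hKb γ x s hs hγ
  · obtain ⟨γ, hγ⟩ := hb s
    exact step_card hf Kb hKb γ x s hs hγ

end

end Pool.Agent.SmallW
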